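import Pool.Agent.helper85.SFF.Two

/-!
# The case `q = 2`: the search
-/

namespace Pool.Agent.helper85.SFF

open Finset

variable {ι : Type*} {S : Finset ι} {d : ι → ℕ}

/-- search for a multiset of at most `c` numbers at most `d` with sum `r`, at most two of them
equal to 1, and product of the `2 ^ x - 1` dividing `M`; `true` if there may be one -/
def ok : ℕ → ℕ → ℕ → ℕ → ℕ → Bool
  | 0, _, _, _, _ => true
  | f + 1, d, c, r, M =>
    if r ≤ 2 then true
    else if d ≤ 1 then false
    else if c * d < r then false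
    else if (d ≤ r ∧ M % (2 ^ d - 1) = 0) ∧ ok f d (c - 1) (r - d) (M / (2 ^ d - 1)) = true
      then true
    else ok f (d - 1) c r M

theorem ok_true : ∀ (f d c r M : ℕ) (m : Multiset ℕ), (∀ x ∈ m, 1 ≤ x ∧ x ≤ d) →
    m.card ≤ c → m.sum = r → m.count 1 ≤ 2 → (m.map (fun x => 2 ^ x - 1)).prod ∣ M →
    ok f d c r M = true := by
  intro f
  induction f with
  | zero => intros; rfl
  | succ f ih =>
    intro d c r M m hm hc hs h1 hp
    unfold ok
    split_ifs with a1 a2 a3 a4
    · rfl
    · exfalso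
      have h2 : m = Multiset.replicate m.card 1 := by
        rw [Multiset.eq_replicate]
        refine ⟨rfl, fun x hx => ?_⟩
        have := hm x hx
        omega
      rw [h2, Multiset.count_replicate_self] at h1
      rw [h2, Multiset.sum_replicate, smul_eq_mul, mul_one] at hs
      omega
    · exfalso
      have h2 := Multiset.sum_le_card_nsmul m d (fun x hx => (hm x hx).2)
      rw [smul_eq_mul] at h2
      have h3 : m.card * d ≤ c * d := Nat.mul_le_mul_right _ hc
      omega
    · rfl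
    · by_cases hd : d ∈ m
      · exfalso
        apply a4
        obtain ⟨m', rfl⟩ := Multiset.exists_cons_of_mem hd
        rw [Multiset.sum_cons] at hs
        rw [Multiset.card_cons] at hc
        rw [Multiset.map_cons, Multiset.prod_cons] at hp
        refine ⟨⟨by omega, Nat.mod_eq_zero_of_dvd ((dvd_mul_right _ _).trans hp)⟩, ?_⟩
        refine ih d (c - 1) (r - d) _ m' (fun x hx => hm x (Multiset.mem_cons_of_mem hx))
          (by omega) (by omega) ?_ (Nat.dvd_div_of_mul_dvd hp)
        exact (Multiset.count_le_count_cons _ _ _).trans h1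
      · refine ih (d - 1) c r M m (fun x hx => ?_) hc hs h1 hp
        have h2 := hm x hx
        have h3 : x ≠ d := fun h => hd (h ▸ hx)
        omega

/-- the pairs to be excluded -/
def bad (n a : ℕ) : Bool :=
  decide (2 ≤ n) && decide (1 ≤ a) && decide ((n - 1) * a ≤ 20 * (n * 4)) && decide (6 < n * a) &&
    ok 200 (min a (n * 4)) 20 ((n - 1) * a) ((2 ^ (n * a) - 1) / (2 ^ a - 1))

theorem chk0 : ((List.range 22).all fun n => (List.range 161).all fun a => !bad n a) = true := by
  decide +kernel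

theorem chk (n : ℕ) (hn : n < 22) (a : ℕ) (ha : a < 161) (h2 : 2 ≤ n) (h1 : 1 ≤ a)
    (h3 : (n - 1) * a ≤ 20 * (n * 4))
    (h4 : ok 200 (min a (n * 4)) 20 ((n - 1) * a) ((2 ^ (n * a) - 1) / (2 ^ a - 1)) = true) :
    n * a ≤ 6 := by
  by_contra hc
  have h5 := List.all_eq_true.1 (List.all_eq_true.1 chk0 n (List.mem_range.2 hn)) a
    (List.mem_range.2 ha)
  unfold bad at h5
  rw [h4, decide_eq_true h2, decide_eq_true h1, decide_eq_true h3,
    decide_eq_true (show 6 < n * a by omega)] at h5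
  exact absurd h5 (by decide)

/-- the classification of the multisets `m` with sum `N`, as a test -/
def tst (N : ℕ) (m : Multiset ℕ) : Bool :=
  !(decide (2 ≤ m.card) && decide (m.count 1 ≤ 2) &&
    decide ((m.map (fun x => 2 ^ x - 1)).prod ∣ 2 ^ N - 1)) ||
  (decide (m = {1, 1}) || decide (m = {1, 1, 2}) || decide (m = {1, 2, 3}) ||
    decide (m = {1, 1, 2, 2}))

/-- all multisets of numbers between `1` and `k` with sum `N` (`f` is fuel) -/
def en : ℕ → ℕ → ℕ → List (Multiset ℕ)
  | 0, _, _ => []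
  | f + 1, k, N =>
    (if N = 0 then [0] else []) ++
      (if k = 0 then [] else
        en f (k - 1) N ++ (if k ≤ N then (en f k (N - k)).map (fun m => k ::ₘ m) else []))

theorem mem_en : ∀ (f k N : ℕ) (m : Multiset ℕ), k + N < f → (∀ x ∈ m, 1 ≤ x ∧ x ≤ k) →
    m.sum = N → m ∈ en f k N := by
  intro f
  induction f with
  | zero => intro k N m h; omega
  | succ f ih =>
    intro k N m hf hm hs
    unfold en
    rw [List.mem_append]
    rcases Multiset.empty_or_exists_mem m with rfl | ⟨y, hy⟩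
    · left
      rw [Multiset.sum_zero] at hs
      rw [if_pos hs.symm]
      exact List.mem_singleton.2 rfl
    · right
      have hy1 := hm y hy
      have hk : k ≠ 0 := by omega
      rw [if_neg hk, List.mem_append]
      by_cases hkm : k ∈ m
      · right
        obtain ⟨m', rfl⟩ := Multiset.exists_cons_of_mem hkm
        rw [Multiset.sum_cons] at hs
        rw [if_pos (by omega)]
        refine List.mem_map.2 ⟨m', ?_, rfl⟩
        exact ih k (N - k) m' (by omega) (fun x hx => hm x (Multiset.mem_cons_of_mem hx))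
          (by omega)
      · left
        refine ih (k - 1) N m (by omega) (fun x hx => ?_) hs
        have h2 := hm x hx
        have h3 : x ≠ k := fun h => hkm (h ▸ hx)
        omega

theorem tst0 : ((List.range 7).all fun N => (en 20 6 N).all fun m => tst N m) = true := by
  decide +kernel

theorem small_class (N : ℕ) (hN : N < 7) (m : Multiset ℕ) (hm : ∀ x ∈ m, 1 ≤ x)
    (hs : m.sum = N) (h2 : 2 ≤ m.card) (h1 : m.count 1 ≤ 2)
    (h : (m.map (fun x => 2 ^ x - 1)).prod ∣ 2 ^ N - 1) :
    m = {1, 1} ∨ m = {1, 1, 2} ∨ m = {1, 2, 3} ∨ m = {1, 1, 2, 2} := by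
  have hmem : m ∈ en 20 6 N := by
    refine mem_en 20 6 N m (by omega) (fun x hx => ⟨hm x hx, ?_⟩) hs
    have := Multiset.le_sum_of_mem hx
    omega
  have ht := List.all_eq_true.1 (List.all_eq_true.1 tst0 N (List.mem_range.2 hN)) m hmem
  unfold tst at ht
  rw [decide_eq_true h2, decide_eq_true h1, decide_eq_true h] at ht
  simpa [or_assoc] using ht

theorem two_small {L : ℕ} (hL : 64 ≤ L) : 2 * (L * L + 4 * L + 5) ^ 3 < 2 ^ L := by
  induction L, hL using Nat.le_induction with
  | base => norm_num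
  | succ L hL ih =>
    have h1 : ((L + 1) * (L + 1) + 4 * (L + 1) + 5) * 8 ≤ (L * L + 4 * L + 5) * 9 := by nlinarith
    have h2 := Nat.pow_le_pow_left h1 3
    rw [mul_pow, mul_pow] at h2
    rw [pow_succ 2 L]
    norm_num at h2
    omega

theorem two_bound (h2 : 2 ≤ S.card) (hd : ∀ i ∈ S, 1 ≤ d i)
    (h : ∏ i ∈ S, (2 ^ d i - 1) ∣ 2 ^ (∑ i ∈ S, d i) - 1)
    (h1 : (S.filter (fun i => d i = 1)).card ≤ 2) :
    ∑ i ∈ S, d i < 2 ^ 64 := by
  obtain ⟨N, hN⟩ : ∃ N, N = ∑ i ∈ S, d i := ⟨_, rfl⟩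
  rw [← hN]
  obtain ⟨L, hL⟩ : ∃ L, L = Nat.log 2 N := ⟨_, rfl⟩
  have hlt : N < 2 ^ (L + 1) := by rw [hL]; exact Nat.lt_pow_succ_log_self (by omega) N
  have e0 : 1 ≤ 2 ^ (L + 1) := Nat.one_le_two_pow
  have e3 : 2 ^ (L + 1) ≤ 3 ^ (L + 1) := Nat.pow_le_pow_left (by omega) _
  have e7 : 2 ^ (L + 1) ≤ 7 ^ (L + 1) := Nat.pow_le_pow_left (by omega) _
  have e31 : 2 ^ (L + 1) ≤ 31 ^ (L + 1) := Nat.pow_le_pow_left (by omega) _
  have e5 : 2 ^ (L + 1) ≤ 5 ^ (L + 1 + 1) :=
    (Nat.pow_le_pow_left (by omega) _).trans (Nat.pow_le_pow_right (by omega) (by omega))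
  have hr := two_card hd h h1 (2 ^ (L + 1)) (L + 1) (L + 1) (L + 1) (L + 1)
    (by rw [← hN]; exact hlt) (by omega) (by omega) (by omega) e5
  obtain ⟨R, hR⟩ : ∃ R, R = L * L + 4 * L + 5 := ⟨_, rfl⟩
  have hrR : S.card ≤ R := by
    have : 2 + (L + 1) + (L + 1) + (L + 1) * (L + 1) = L * L + 4 * L + 5 := by ring
    omega
  have hsz := two_size h2 hd h hrR (G := R) (Nat.lt_two_pow_self)
  rw [← hN] at hsz
  by_contra hc
  have h5 : 64 ≤ L := by rw [hL]; exact Nat.le_log_of_pow_le (by omega) (by omega)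
  have h6 : 2 ^ L ≤ N := by rw [hL]; exact Nat.pow_log_le_self 2 (by omega)
  have h7 := two_small h5
  rw [← hR] at h7
  have h8 : (R - 1) * (R + 2) * R ≤ 2 * R ^ 3 := by
    calc (R - 1) * (R + 2) * R ≤ R * (2 * R) * R :=
          Nat.mul_le_mul_right _ (Nat.mul_le_mul (by omega) (by omega))
      _ = 2 * R ^ 3 := by ring
  omega

theorem two_card21 (h2 : 2 ≤ S.card) (hd : ∀ i ∈ S, 1 ≤ d i)
    (h : ∏ i ∈ S, (2 ^ d i - 1) ∣ 2 ^ (∑ i ∈ S, d i) - 1)
    (h1 : (S.filter (fun i => d i = 1)).card ≤ 2) : S.card ≤ 21 := by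
  have b0 := two_bound h2 hd h h1
  have r0 := two_card hd h h1 (2 ^ 64) 40 23 13 27 b0 (by norm_num) (by norm_num) (by norm_num)
    (by norm_num)
  have s0 := two_size h2 hd h r0 (G := 8) (by norm_num)
  have r1 := two_card hd h h1 1387761 13 7 4 8 (by norm_num at s0; omega) (by norm_num)
    (by norm_num) (by norm_num) (by norm_num)
  have s1 := two_size h2 hd h r1 (G := 5) (by norm_num)
  have r2 := two_card hd h h1 14841 9 5 3 5 (by norm_num at s1; omega) (by norm_num)
    (by norm_num) (by norm_num) (by norm_num)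
  have s2 := two_size h2 hd h r2 (G := 5) (by norm_num)
  have r3 := two_card hd h h1 4951 8 4 3 5 (by norm_num at s2; omega) (by norm_num)
    (by norm_num) (by norm_num) (by norm_num)
  have s3 := two_size h2 hd h r3 (G := 4) (by norm_num)
  have r4 := two_card hd h h1 3473 7 4 2 5 (by norm_num at s3; omega) (by norm_num)
    (by norm_num) (by norm_num) (by norm_num)
  have s4 := two_size h2 hd h r4 (G := 4) (by norm_num)
  have r5 := two_card hd h h1 2201 7 4 2 4 (by norm_num at s4; omega) (by norm_num)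
    (by norm_num) (by norm_num) (by norm_num)
  exact r5

theorem count_map_one (T : Finset ι) :
    (T.val.map d).count 1 = (T.filter (fun i => d i = 1)).card := by
  rw [Multiset.count_map]
  simp only [eq_comm]
  rfl

theorem two_class (h2 : 2 ≤ S.card) (hd : ∀ i ∈ S, 1 ≤ d i)
    (h : ∏ i ∈ S, (2 ^ d i - 1) ∣ 2 ^ (∑ i ∈ S, d i) - 1)
    (h1 : (S.filter (fun i => d i = 1)).card ≤ 2) :
    S.val.map d = {1, 1} ∨ S.val.map d = {1, 1, 2} ∨ S.val.map d = {1, 2, 3} ∨
      S.val.map d = {1, 1, 2, 2} := by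
  classical
  have hr := two_card21 h2 hd h h1
  obtain ⟨i0, hi0, n, hn2, hnr, hN, hmax, hoth⟩ := two_struct h2 hd h
  have hrest := two_rest hi0 hn2 hN
  have ho4 := hoth 4 (by omega)
  have ha := hd i0 hi0
  have hsum := sum_le_card_nsmul (S.erase i0) d (n * 4) ho4
  rw [hrest, smul_eq_mul, card_erase_of_mem hi0] at hsum
  have hsum' : (n - 1) * d i0 ≤ 20 * (n * 4) :=
    hsum.trans (Nat.mul_le_mul_right _ (by omega))
  have ha161 : d i0 < 161 := by
    by_contra hc
    have h3 : (n - 1) * 161 ≤ (n - 1) * d i0 := Nat.mul_le_mul_left _ (by omega)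
    omega
  have hprod : (((S.erase i0).val.map d).map (fun x => 2 ^ x - 1)).prod ∣
      (2 ^ (n * d i0) - 1) / (2 ^ d i0 - 1) := by
    rw [Multiset.map_map]
    refine Nat.dvd_div_of_mul_dvd ?_
    rw [← mul_prod_erase S (fun i => 2 ^ d i - 1) hi0, hN] at h
    exact h
  have hle6 : n * d i0 ≤ 6 := by
    refine chk n (by omega) (d i0) ha161 hn2 ha hsum' ?_
    refine ok_true _ _ _ _ _ ((S.erase i0).val.map d) ?_ ?_ hrest ?_ hprod
    · intro x hx
      obtain ⟨j, hj, rfl⟩ := Multiset.mem_map.1 hx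
      have hj' : j ∈ S.erase i0 := hj
      exact ⟨hd j (mem_of_mem_erase hj'), le_min (hmax j (mem_of_mem_erase hj')) (ho4 j hj')⟩
    · rw [Multiset.card_map]
      have : (S.erase i0).card = S.card - 1 := card_erase_of_mem hi0
      change (S.erase i0).card ≤ 20
      omega
    · rw [count_map_one]
      exact (card_le_card (filter_subset_filter _ (erase_subset _ _))).trans h1
  refine small_class (n * d i0) (by omega) (S.val.map d) ?_ hN ?_ ?_ ?_
  · intro x hx
    obtain ⟨j, hj, rfl⟩ := Multiset.mem_map.1 hx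
    exact hd j hj
  · rw [Multiset.card_map]
    exact h2
  · rw [count_map_one]
    exact h1
  · rw [Multiset.map_map, ← hN]
    exact h

end Pool.Agent.helper85.SFF
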