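import Mathlib

/-!
# Products of `q^d - 1` dividing `q^N - 1`, `N` the sum of the `d`
-/

namespace Pool.Agent.helper85.SFF

open Finset

theorem pv_prod {ι : Type*} (p : ℕ) [Fact p.Prime] (S : Finset ι) (g : ι → ℕ)
    (hg : ∀ i ∈ S, g i ≠ 0) :
    padicValNat p (∏ i ∈ S, g i) = ∑ i ∈ S, padicValNat p (g i) := by
  classical
  induction S using Finset.induction_on with
  | empty => simp
  | insert a s ha ih =>
    rw [prod_insert ha, sum_insert ha, padicValNat.mul (hg a (mem_insert_self a s)), ih]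
    · intro i hi; exact hg i (mem_insert_of_mem hi)
    · exact prod_ne_zero_iff.2 fun i hi => hg i (mem_insert_of_mem hi)

theorem pv_le {p : ℕ} [Fact p.Prime] {a b : ℕ} (hb : b ≠ 0) (h : a ∣ b) :
    padicValNat p a ≤ padicValNat p b :=
  (padicValNat_dvd_iff_le hb).1 (pow_padicValNat_dvd.trans h)

theorem pow_sub_one_ne {q d : ℕ} (hq : 2 ≤ q) (hd : 1 ≤ d) : q ^ d - 1 ≠ 0 := by
  have : 2 ^ 1 ≤ q ^ d := (Nat.pow_le_pow_left hq 1).trans (Nat.pow_le_pow_right (by omega) hd)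
  omega

theorem dvd_of_pow {q d N : ℕ} (hq : 2 ≤ q) (h : q ^ d - 1 ∣ q ^ N - 1) : d ∣ N := by
  have h1 := Nat.pow_sub_one_gcd_pow_sub_one q d N
  rw [Nat.gcd_eq_left h] at h1
  have h2 : 1 ≤ q ^ d := Nat.one_le_pow _ _ (by omega)
  have h3 : 1 ≤ q ^ Nat.gcd d N := Nat.one_le_pow _ _ (by omega)
  have h4 : q ^ d = q ^ Nat.gcd d N := by omega
  have h5 : d = Nat.gcd d N := Nat.pow_right_injective hq h4
  rw [h5]; exact Nat.gcd_dvd_right d N

section key

variable {ι : Type*} {S : Finset ι} {d : ι → ℕ} {q : ℕ}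

theorem each_dvd (hq : 2 ≤ q) (h : ∏ i ∈ S, (q ^ d i - 1) ∣ q ^ (∑ i ∈ S, d i) - 1)
    {i : ι} (hi : i ∈ S) : d i ∣ ∑ i ∈ S, d i :=
  dvd_of_pow hq ((dvd_prod_of_mem (fun i => q ^ d i - 1) hi).trans h)

theorem key (hq : 2 ≤ q) (hd : ∀ i ∈ S, 1 ≤ d i)
    (h : ∏ i ∈ S, (q ^ d i - 1) ∣ q ^ (∑ i ∈ S, d i) - 1)
    {p : ℕ} (hp : p.Prime) {v w : ℕ}
    (hv : ∀ n, 1 ≤ n → v + padicValNat p n ≤ padicValNat p (q ^ n - 1))
    (hw : padicValNat p (q ^ (∑ i ∈ S, d i) - 1) ≤ w + padicValNat p (∑ i ∈ S, d i))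
    {i : ι} (hi : i ∈ S) : p ^ (v * S.card - w) * d i ∣ ∑ i ∈ S, d i := by
  classical
  have := Fact.mk hp
  set N := ∑ i ∈ S, d i with hN
  have hN1 : 1 ≤ N := (hd i hi).trans (single_le_sum (f := d) (fun _ _ => Nat.zero_le _) hi)
  obtain ⟨m, hm⟩ := each_dvd hq h hi
  rw [← hN] at hm
  have hdi : d i ≠ 0 := by have := hd i hi; omega
  have hm0 : m ≠ 0 := by rintro rfl; omega
  have h1 : ∑ j ∈ S, padicValNat p (q ^ d j - 1) ≤ w + padicValNat p N := by
    rw [← pv_prod p S (fun j => q ^ d j - 1) (fun j hj => pow_sub_one_ne hq (hd j hj))]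
    exact (pv_le (pow_sub_one_ne hq hN1) h).trans hw
  have h2 : ∑ j ∈ S, (v + padicValNat p (d j)) ≤ ∑ j ∈ S, padicValNat p (q ^ d j - 1) :=
    sum_le_sum fun j hj => hv (d j) (hd j hj)
  have h3 : padicValNat p (d i) ≤ ∑ j ∈ S, padicValNat p (d j) :=
    single_le_sum (f := fun j => padicValNat p (d j)) (fun _ _ => Nat.zero_le _) hi
  have h4 : padicValNat p N = padicValNat p (d i) + padicValNat p m := by
    rw [hm, padicValNat.mul hdi hm0]
  rw [sum_add_distrib, sum_const, smul_eq_mul, mul_comm] at h2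
  have h5 : v * S.card - w ≤ padicValNat p m := by omega
  have h6 : p ^ (v * S.card - w) ∣ m := (padicValNat_dvd_iff_le hm0).2 h5
  rw [hm, mul_comm]
  exact mul_dvd_mul_left _ h6

theorem key_le (hq : 2 ≤ q) (hS : S.Nonempty) (hd : ∀ i ∈ S, 1 ≤ d i)
    (h : ∏ i ∈ S, (q ^ d i - 1) ∣ q ^ (∑ i ∈ S, d i) - 1)
    {p : ℕ} (hp : p.Prime) {v w : ℕ}
    (hv : ∀ n, 1 ≤ n → v + padicValNat p n ≤ padicValNat p (q ^ n - 1))
    (hw : padicValNat p (q ^ (∑ i ∈ S, d i) - 1) ≤ w + padicValNat p (∑ i ∈ S, d i)) :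
    p ^ (v * S.card - w) ≤ S.card := by
  obtain ⟨i0, hi0⟩ := hS
  have hN1 : 1 ≤ ∑ i ∈ S, d i :=
    (hd i0 hi0).trans (single_le_sum (f := d) (fun _ _ => Nat.zero_le _) hi0)
  have h1 : ∑ i ∈ S, p ^ (v * S.card - w) * d i ≤ ∑ _i ∈ S, ∑ i ∈ S, d i :=
    sum_le_sum fun i hi => Nat.le_of_dvd hN1 (key hq hd h hp hv hw hi)
  rw [← mul_sum, sum_const, smul_eq_mul] at h1
  exact Nat.le_of_mul_le_mul_right h1 hN1

end key

theorem two_lower {q n : ℕ} (hq : 2 ≤ q) (hodd : ¬ 2 ∣ q) (hn : 1 ≤ n) :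
    padicValNat 2 (q - 1) + padicValNat 2 n ≤ padicValNat 2 (q ^ n - 1) := by
  rcases Nat.even_or_odd n with he | ho
  · have h1 := padicValNat.pow_two_sub_one (x := q) (n := n) (by omega) hodd (by omega) he
    have h2 : 1 ≤ padicValNat 2 (q + 1) :=
      one_le_padicValNat_of_dvd (by omega) (by omega)
    omega
  · have h1 : padicValNat 2 n = 0 :=
      padicValNat.eq_zero_of_not_dvd (by rintro ⟨k, hk⟩; rcases ho with ⟨l, hl⟩; omega)
    rw [h1, add_zero]
    refine pv_le (pow_sub_one_ne hq hn) ?_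
    simpa using Nat.sub_dvd_pow_sub_pow q 1 n

theorem two_upper {q n : ℕ} (hq : 2 ≤ q) (hodd : ¬ 2 ∣ q) (hn : 1 ≤ n) :
    padicValNat 2 (q ^ n - 1) + 1 ≤
      padicValNat 2 (q + 1) + padicValNat 2 (q - 1) + padicValNat 2 n := by
  have h2 : 1 ≤ padicValNat 2 (q + 1) :=
    one_le_padicValNat_of_dvd (by omega) (by omega)
  rcases Nat.even_or_odd n with he | ho
  · exact (padicValNat.pow_two_sub_one (x := q) (n := n) (by omega) hodd (by omega) he).le
  · have h1 : padicValNat 2 n = 0 :=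
      padicValNat.eq_zero_of_not_dvd (by rintro ⟨k, hk⟩; rcases ho with ⟨l, hl⟩; omega)
    have h3 := padicValNat.pow_two_sub_one (x := q) (n := 2 * n) (by omega) hodd (by omega)
      (even_two_mul n)
    have h4 : q ^ (2 * n) - 1 = (q ^ n + 1) * (q ^ n - 1) := by
      rw [mul_comm 2 n, pow_mul, ← Nat.sq_sub_sq, one_pow]
    rw [h4, padicValNat.mul (by omega) (pow_sub_one_ne hq hn), padicValNat.mul (by norm_num)
      (by omega), h1] at h3
    have h5 : padicValNat 2 (q + 1) ≤ padicValNat 2 (q ^ n + 1) := by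
      refine pv_le (by omega) ?_
      simpa using Odd.nat_add_dvd_pow_add_pow q 1 ho
    have h6 : padicValNat 2 2 = 1 := padicValNat.self (by norm_num)
    omega

theorem lt_pow_three {r : ℕ} (hr : 2 ≤ r) : r < 3 ^ (r - 1) := by
  induction r, hr using Nat.le_induction with
  | base => norm_num
  | succ n hn ih =>
    have e : n + 1 - 1 = (n - 1) + 1 := by omega
    rw [e, pow_succ]; omega

theorem lt_pow_two {r : ℕ} (hr : 5 ≤ r) : r < 2 ^ (r - 2) := by
  induction r, hr using Nat.le_induction with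
  | base => norm_num
  | succ n hn ih =>
    have e : n + 1 - 2 = (n - 2) + 1 := by omega
    rw [e, pow_succ]; omega

/-- `q = 3` or no solution. -/
theorem q_eq_three {ι : Type*} {S : Finset ι} {d : ι → ℕ} {q : ℕ} (hq : 3 ≤ q)
    (hS : 2 ≤ S.card) (hd : ∀ i ∈ S, 1 ≤ d i)
    (h : ∏ i ∈ S, (q ^ d i - 1) ∣ q ^ (∑ i ∈ S, d i) - 1) : q = 3 := by
  have hne : S.Nonempty := card_pos.1 (by omega)
  obtain ⟨i0, hi0⟩ := hne
  have hN1 : 1 ≤ ∑ i ∈ S, d i :=
    (hd i0 hi0).trans (single_le_sum (f := d) (fun _ _ => Nat.zero_le _) hi0)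
  by_contra hq3
  have hq4 : 4 ≤ q := by omega
  by_cases h4 : 4 ∣ q - 1
  · -- the prime 2
    have hodd : ¬ 2 ∣ q := by omega
    have hv1 : padicValNat 2 (q + 1) = 1 := by
      have a1 : 1 ≤ padicValNat 2 (q + 1) := one_le_padicValNat_of_dvd (by omega) (by omega)
      have a2 : ¬ 2 ≤ padicValNat 2 (q + 1) := by
        intro hc
        have : 2 ^ 2 ∣ q + 1 := (padicValNat_dvd_iff_le (by omega)).2 hc
        omega
      omega
    have hv2 : 2 ≤ padicValNat 2 (q - 1) :=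
      (padicValNat_dvd_iff_le (by omega)).1 (by simpa using h4)
    have hk := key_le (p := 2) (v := padicValNat 2 (q - 1)) (w := padicValNat 2 (q - 1))
      (by omega) ⟨i0, hi0⟩ hd h Nat.prime_two
      (fun n hn => two_lower (by omega) hodd hn)
      (by have := two_upper (q := q) (by omega) hodd hN1; omega)
    have h5 : S.card - 1 ≤ padicValNat 2 (q - 1) * S.card - padicValNat 2 (q - 1) := by
      rw [← Nat.mul_sub_one]
      nlinarith
    have h6 : 2 * (S.card - 1) ≤ padicValNat 2 (q - 1) * S.card - padicValNat 2 (q - 1) := by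
      rw [← Nat.mul_sub_one]
      exact Nat.mul_le_mul_right _ hv2
    have h7 : 3 ^ (S.card - 1) ≤ 2 ^ (2 * (S.card - 1)) := by
      rw [pow_mul]; exact Nat.pow_le_pow_left (by norm_num) _
    have h8 : 2 ^ (2 * (S.card - 1)) ≤
        2 ^ (padicValNat 2 (q - 1) * S.card - padicValNat 2 (q - 1)) :=
      Nat.pow_le_pow_right (by norm_num) h6
    have h9 := lt_pow_three hS
    omega
  · -- an odd prime divisor of q - 1
    obtain ⟨p, hp, hpo, hpd⟩ : ∃ p, p.Prime ∧ p ≠ 2 ∧ p ∣ q - 1 := by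
      by_contra hc
      push Not at hc
      have h1 : q - 1 = 2 ^ (q - 1).primeFactorsList.length :=
        Nat.eq_prime_pow_of_unique_prime_dvd (by omega) (fun {r} hr hrd => by
          by_contra hr2
          exact hc r hr hr2 hrd)
      have h2 : (q - 1).primeFactorsList.length < 2 := by
        by_contra h3
        have : 2 ^ 2 ∣ 2 ^ (q - 1).primeFactorsList.length := pow_dvd_pow 2 (by omega)
        rw [← h1] at this
        exact h4 (by simpa using this)
      have h3 : 2 ^ (q - 1).primeFactorsList.length ≤ 2 ^ 1 :=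
        Nat.pow_le_pow_right (by norm_num) (by omega)
      omega
    have := Fact.mk hp
    have hodd : Odd p := hp.odd_of_ne_two hpo
    have hpq : ¬ p ∣ q := by
      intro hc
      have h1 : p ∣ q - (q - 1) := Nat.dvd_sub hc hpd
      have h2 : q - (q - 1) = 1 := by omega
      rw [h2] at h1
      exact hp.one_lt.ne' (Nat.dvd_one.1 h1)
    have hl : ∀ n, 1 ≤ n → padicValNat p (q ^ n - 1) = padicValNat p (q - 1) + padicValNat p n := by
      intro n hn
      have := padicValNat.pow_sub_pow (p := p) hodd (x := q) (y := 1) (by omega) hpd hpq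
        (n := n) (by omega)
      simpa using this
    have hv1 : 1 ≤ padicValNat p (q - 1) := one_le_padicValNat_of_dvd (by omega) hpd
    have hk := key_le (p := p) (v := padicValNat p (q - 1)) (w := padicValNat p (q - 1))
      (by omega) ⟨i0, hi0⟩ hd h hp (fun n hn => (hl n hn).ge) (hl _ hN1).le
    have h6 : 1 * (S.card - 1) ≤ padicValNat p (q - 1) * S.card - padicValNat p (q - 1) := by
      rw [← Nat.mul_sub_one]
      exact Nat.mul_le_mul_right _ hv1
    have hp3 : 3 ≤ p := by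
      have := hp.two_le
      omega
    have h7 : 3 ^ (S.card - 1) ≤ p ^ (S.card - 1) := Nat.pow_le_pow_left hp3 _
    have h8 : p ^ (S.card - 1) ≤
        p ^ (padicValNat p (q - 1) * S.card - padicValNat p (q - 1)) :=
      Nat.pow_le_pow_right (by omega) (by omega)
    have h9 := lt_pow_three hS
    omega

end Pool.Agent.helper85.SFF
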