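import Pool.Agent.helper85.SFF.Arith

/-!
# The case `q = 3`
-/

namespace Pool.Agent.helper85.SFF

open Finset

theorem v4 : padicValNat 2 4 = 2 := by
  have := padicValNat.prime_pow (p := 2) 2
  simpa using this

theorem three_upper {n : ℕ} (hn : 1 ≤ n) : padicValNat 2 (3 ^ n - 1) ≤ 2 + padicValNat 2 n := by
  have h := two_upper (q := 3) (by norm_num) (by norm_num) hn
  have h1 : padicValNat 2 (3 + 1) = 2 := v4
  have h2 : padicValNat 2 (3 - 1) = 1 := padicValNat.self (by norm_num)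
  omega

theorem three_lower {n : ℕ} (hn : 1 ≤ n) : 1 + padicValNat 2 n ≤ padicValNat 2 (3 ^ n - 1) := by
  have h := two_lower (q := 3) (by norm_num) (by norm_num) hn
  have h2 : padicValNat 2 (3 - 1) = 1 := padicValNat.self (by norm_num)
  omega

theorem sq_split (a : ℕ) : 3 ^ (a + a) - 1 = (3 ^ a + 1) * (3 ^ a - 1) := by
  rw [← two_mul, mul_comm 2 a, pow_mul, ← Nat.sq_sub_sq, one_pow]

theorem case_two {a : ℕ} (ha : 1 ≤ a) (h : (3 ^ a - 1) * (3 ^ a - 1) ∣ 3 ^ (a + a) - 1) :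
    a = 1 := by
  rw [sq_split] at h
  have h0 : 0 < 3 ^ a - 1 := Nat.pos_of_ne_zero (pow_sub_one_ne (by norm_num) ha)
  have h1 : 3 ^ a - 1 ∣ 3 ^ a + 1 := Nat.dvd_of_mul_dvd_mul_right h0 h
  have h2 : 3 ^ a - 1 ∣ (3 ^ a + 1) - (3 ^ a - 1) := Nat.dvd_sub h1 dvd_rfl
  have h3 : 1 ≤ 3 ^ a := Nat.one_le_pow _ _ (by norm_num)
  have h4 : (3 ^ a + 1) - (3 ^ a - 1) = 2 := by omega
  rw [h4] at h2
  have h5 := Nat.le_of_dvd (by norm_num) h2
  by_contra hne
  have h6 : 3 ^ 2 ≤ 3 ^ a := Nat.pow_le_pow_right (by norm_num) (by omega)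
  omega

theorem case_three {a b c : ℕ} (ha : 1 ≤ a) (hb : 1 ≤ b) (hc : 1 ≤ c) (hba : b ≤ a) (hca : c ≤ a)
    (h : (3 ^ a - 1) * ((3 ^ b - 1) * (3 ^ c - 1)) ∣ 3 ^ (a + (b + c)) - 1)
    (h2a : 2 * a ∣ a + (b + c)) (h2b : 2 * b ∣ a + (b + c)) (h2c : 2 * c ∣ a + (b + c)) :
    False := by
  obtain ⟨k, hk⟩ := h2a
  have hk1 : k = 1 := by
    have h1 : 2 * a * k ≤ 3 * a := by omega
    have h2 : 2 * k ≤ 3 := by
      have : (2 * k) * a ≤ 3 * a := by calc (2 * k) * a = 2 * a * k := by ring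
          _ ≤ 3 * a := h1
      exact Nat.le_of_mul_le_mul_right this (by omega)
    have h3 : k ≠ 0 := by rintro rfl; omega
    omega
  subst hk1
  have hs : a = b + c := by omega
  have hbc : b ∣ c := by
    have h1 : 2 * b ∣ 2 * (b + c) := by
      have : a + (b + c) = 2 * (b + c) := by omega
      rwa [this] at h2b
    exact (Nat.dvd_add_right (dvd_refl b)).1 (Nat.dvd_of_mul_dvd_mul_left (by norm_num) h1)
  have hcb : c ∣ b := by
    have h1 : 2 * c ∣ 2 * (b + c) := by
      have : a + (b + c) = 2 * (b + c) := by omega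
      rwa [this] at h2c
    exact (Nat.dvd_add_left (dvd_refl c)).1 (Nat.dvd_of_mul_dvd_mul_left (by norm_num) h1)
  have e : b = c := Nat.dvd_antisymm hbc hcb
  subst e
  subst hs
  have hN : b + b + (b + b) = 4 * b := by ring
  rw [hN] at h
  have n1 : 3 ^ (b + b) - 1 ≠ 0 := pow_sub_one_ne (by norm_num) (by omega)
  have n2 : 3 ^ b - 1 ≠ 0 := pow_sub_one_ne (by norm_num) (by omega)
  have n3 : 3 ^ (4 * b) - 1 ≠ 0 := pow_sub_one_ne (by norm_num) (by omega)
  have h5 := pv_le (p := 2) n3 h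
  rw [padicValNat.mul n1 (mul_ne_zero n2 n2), padicValNat.mul n2 n2] at h5
  have h6 := three_upper (n := 4 * b) (by omega)
  have h7 : padicValNat 2 (4 * b) = 2 + padicValNat 2 b := by
    rw [padicValNat.mul (by norm_num) (by omega), v4]
  have h8 := padicValNat.pow_two_sub_one_ge (x := 3) (n := b + b) (by norm_num) (by norm_num)
    (by omega) (Even.add_self b)
  have h9 : padicValNat 2 (b + b) = 1 + padicValNat 2 b := by
    rw [← two_mul, padicValNat.mul (by norm_num) (by omega), padicValNat.self (by norm_num)]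
  have h10 := three_lower hb
  omega

theorem case_four {c : ℕ} (hc : 1 ≤ c) (h : (3 ^ c - 1) ^ 4 ∣ 3 ^ (4 * c) - 1) : c = 1 := by
  have h0 : 0 < 3 ^ c - 1 := Nat.pos_of_ne_zero (pow_sub_one_ne (by norm_num) hc)
  obtain ⟨y, hy⟩ : ∃ y, 3 ^ c = y + 1 := ⟨3 ^ c - 1, by omega⟩
  have e : 3 ^ (4 * c) = (y + 1) ^ 4 := by rw [mul_comm, pow_mul, hy]
  rw [e, hy] at h
  have hy0 : 0 < y := by omega
  have e2 : (y + 1) ^ 4 - 1 = y * (y ^ 3 + 4 * y ^ 2 + 6 * y + 4) := by
    have : (y + 1) ^ 4 = y * (y ^ 3 + 4 * y ^ 2 + 6 * y + 4) + 1 := by ring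
    omega
  have e3 : (y + 1 - 1) ^ 4 = y * y ^ 3 := by rw [Nat.add_sub_cancel]; ring
  rw [e2, e3] at h
  have h1 : y ^ 3 ∣ y ^ 3 + 4 * y ^ 2 + 6 * y + 4 := Nat.dvd_of_mul_dvd_mul_left hy0 h
  have h2 : y ∣ y ^ 3 + 4 * y ^ 2 + 6 * y + 4 := (dvd_pow_self y (by norm_num)).trans h1
  have h3 : y ∣ 4 := by
    have h4 : y ∣ y ^ 3 + 4 * y ^ 2 + 6 * y := ⟨y ^ 2 + 4 * y + 6, by ring⟩
    exact (Nat.dvd_add_right h4).1 h2
  have h5 := Nat.le_of_dvd (by norm_num) h3
  by_contra hne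
  have h6 : 3 ^ 2 ≤ 3 ^ c := Nat.pow_le_pow_right (by norm_num) (by omega)
  omega

theorem three_main {ι : Type*} {S : Finset ι} {d : ι → ℕ}
    (hS : 2 ≤ S.card) (hd : ∀ i ∈ S, 1 ≤ d i)
    (h : ∏ i ∈ S, (3 ^ d i - 1) ∣ 3 ^ (∑ i ∈ S, d i) - 1) :
    (S.card = 2 ∨ S.card = 4) ∧ ∀ i ∈ S, d i = 1 := by
  classical
  have hne : S.Nonempty := card_pos.1 (by omega)
  obtain ⟨i0, hi0⟩ := id hne
  have hN1 : 1 ≤ ∑ i ∈ S, d i :=
    (hd i0 hi0).trans (single_le_sum (f := d) (fun _ _ => Nat.zero_le _) hi0)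
  have hk : ∀ i ∈ S, 2 ^ (1 * S.card - 2) * d i ∣ ∑ i ∈ S, d i := fun i hi =>
    key (p := 2) (v := 1) (w := 2) (by norm_num) hd h Nat.prime_two
      (fun n hn => three_lower hn) (three_upper hN1) hi
  have hkl : 2 ^ (1 * S.card - 2) ≤ S.card :=
    key_le (p := 2) (v := 1) (w := 2) (by norm_num) hne hd h Nat.prime_two
      (fun n hn => three_lower hn) (three_upper hN1)
  rw [one_mul] at hkl
  have h4 : S.card ≤ 4 := by
    by_contra hc
    have := lt_pow_two (r := S.card) (by omega)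
    omega
  have hed : ∀ i ∈ S, d i ∣ ∑ i ∈ S, d i := fun i hi => each_dvd (by norm_num) h hi
  obtain hc | hc | hc : S.card = 2 ∨ S.card = 3 ∨ S.card = 4 := by omega
  · refine ⟨Or.inl hc, ?_⟩
    obtain ⟨x, y, hxy, rfl⟩ := card_eq_two.1 hc
    rw [prod_pair hxy, sum_pair hxy] at h
    have hx := hed x (by simp)
    have hy := hed y (by simp)
    rw [sum_pair hxy] at hx hy
    have e : d x = d y := Nat.dvd_antisymm ((Nat.dvd_add_right (dvd_refl _)).1 hx)
      ((Nat.dvd_add_left (dvd_refl _)).1 hy)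
    rw [← e] at h
    have := case_two (hd x (by simp)) h
    intro i hi
    rw [mem_insert, mem_singleton] at hi
    rcases hi with rfl | rfl <;> omega
  · exfalso
    obtain ⟨x, y, z, hxy, hxz, hyz, rfl⟩ := card_eq_three.1 hc
    rw [hc] at hk
    have hs : ∑ i ∈ ({x, y, z} : Finset ι), d i = d x + (d y + d z) := by
      rw [sum_insert (by simp [hxy, hxz]), sum_pair hyz]
    have hp : ∏ i ∈ ({x, y, z} : Finset ι), (3 ^ d i - 1)
        = (3 ^ d x - 1) * ((3 ^ d y - 1) * (3 ^ d z - 1)) := by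
      rw [prod_insert (by simp [hxy, hxz]), prod_pair hyz]
    rw [hs, hp] at h
    have kx := hk x (by simp)
    have ky := hk y (by simp)
    have kz := hk z (by simp)
    rw [hs] at kx ky kz
    norm_num at kx ky kz
    have px := hd x (by simp)
    have py := hd y (by simp)
    have pz := hd z (by simp)
    generalize d x = a at *
    generalize d y = b at *
    generalize d z = c at *
    rcases le_total b a with hba | hab
    · rcases le_total c a with hca | hac
      · exact case_three px py pz hba hca h kx ky kz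
      · -- c is the largest
        have hN : a + (b + c) = c + (a + b) := by ring
        have hP : (3 ^ a - 1) * ((3 ^ b - 1) * (3 ^ c - 1))
            = (3 ^ c - 1) * ((3 ^ a - 1) * (3 ^ b - 1)) := by ring
        rw [hN, hP] at h
        rw [hN] at kx ky kz
        exact case_three pz px py hac (hba.trans hac) h kz kx ky
    · rcases le_total c b with hcb | hbc
      · have hN : a + (b + c) = b + (a + c) := by ring
        have hP : (3 ^ a - 1) * ((3 ^ b - 1) * (3 ^ c - 1))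
            = (3 ^ b - 1) * ((3 ^ a - 1) * (3 ^ c - 1)) := by ring
        rw [hN, hP] at h
        rw [hN] at kx ky kz
        exact case_three py px pz hab hcb h ky kx kz
      · have hN : a + (b + c) = c + (a + b) := by ring
        have hP : (3 ^ a - 1) * ((3 ^ b - 1) * (3 ^ c - 1))
            = (3 ^ c - 1) * ((3 ^ a - 1) * (3 ^ b - 1)) := by ring
        rw [hN, hP] at h
        rw [hN] at kx ky kz
        exact case_three pz px py (hab.trans hbc) hbc h kz kx ky
  · refine ⟨Or.inr hc, ?_⟩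
    rw [hc] at hk
    set N := ∑ i ∈ S, d i with hN
    have hle : ∀ i ∈ S, 4 * d i ≤ N := fun i hi => by
      have := Nat.le_of_dvd hN1 (hk i hi)
      norm_num at this
      exact this
    have hsum : ∑ i ∈ S, 4 * d i = ∑ _i ∈ S, N := by
      rw [← mul_sum, sum_const, hc, smul_eq_mul]
    have heq := (sum_eq_sum_iff_of_le hle).1 hsum
    have hall : ∀ i ∈ S, d i = d i0 := fun i hi => by
      have h1 := heq i hi
      have h2 := heq i0 hi0
      omega
    have hp : ∏ i ∈ S, (3 ^ d i - 1) = (3 ^ d i0 - 1) ^ 4 := by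
      rw [prod_congr rfl (fun i hi => by rw [hall i hi]), prod_const, hc]
    have hN4 : N = 4 * d i0 := (heq i0 hi0).symm
    rw [hp, hN4] at h
    have := case_four (hd i0 hi0) h
    intro i hi
    rw [hall i hi, this]

end Pool.Agent.helper85.SFF
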