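import Pool.Agent.helper85.SFF.Arith

/-!
# The case `q = 2`: all solutions
-/

namespace Pool.Agent.helper85.SFF

open Finset

variable {ι : Type*} {S : Finset ι} {d : ι → ℕ}

theorem two_val (hd : ∀ i ∈ S, 1 ≤ d i)
    (h : ∏ i ∈ S, (2 ^ d i - 1) ∣ 2 ^ (∑ i ∈ S, d i) - 1) {e : ℕ} (he : 2 ≤ e)
    {m : ℕ} (hm0 : m ≠ 0) (hm : ∑ i ∈ S, d i = e * m) {l : ℕ} (hlp : l.Prime)
    (hld : l ∣ 2 ^ e - 1) :
    (S.filter (fun i => e ∣ d i)).card * padicValNat l (2 ^ e - 1) ≤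
      padicValNat l (2 ^ e - 1) + padicValNat l m := by
  classical
  set T := S.filter (fun i => e ∣ d i) with hT
  set N := ∑ i ∈ S, d i with hN
  have hN1 : 1 ≤ N := by
    rw [hm]; exact Nat.mul_pos (by omega) (by omega)
  have h4 : 2 ^ 2 ≤ 2 ^ e := Nat.pow_le_pow_right (by omega) he
  have := Fact.mk hlp
  have hodd2 : Odd (2 ^ e - 1) := by
    refine Nat.Even.sub_odd (by omega) ?_ odd_one
    exact (even_two).pow_of_ne_zero (by omega)
  have hlodd : Odd l := hodd2.of_dvd_nat hld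
  have hl2 : ¬ l ∣ 2 ^ e := by
    intro hc
    have h2 := hlp.dvd_of_dvd_pow hc
    have h3 := (Nat.prime_dvd_prime_iff_eq hlp Nat.prime_two).1 h2
    rw [h3] at hlodd
    exact absurd hlodd (by decide)
  have hlte : ∀ n, n ≠ 0 → padicValNat l (2 ^ (e * n) - 1)
      = padicValNat l (2 ^ e - 1) + padicValNat l n := by
    intro n hn
    have := padicValNat.pow_sub_pow (x := 2 ^ e) (y := 1) (p := l) hlodd (by omega) hld hl2 hn
    rw [one_pow, ← pow_mul] at this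
    exact this
  have h5 : ∑ i ∈ T, padicValNat l (2 ^ d i - 1) ≤ padicValNat l (2 ^ N - 1) := by
    rw [← pv_prod l T (fun i => 2 ^ d i - 1)
      (fun i hi => pow_sub_one_ne le_rfl (hd i (mem_filter.1 hi).1))]
    exact pv_le (pow_sub_one_ne le_rfl hN1)
      ((prod_dvd_prod_of_subset _ _ _ (filter_subset _ _)).trans h)
  have h6 : ∑ _i ∈ T, padicValNat l (2 ^ e - 1) ≤ ∑ i ∈ T, padicValNat l (2 ^ d i - 1) := by
    refine sum_le_sum fun i hi => ?_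
    obtain ⟨k, hk⟩ := (mem_filter.1 hi).2
    have hk0 : k ≠ 0 := by
      rintro rfl
      have := hd i (mem_filter.1 hi).1
      omega
    rw [hk, hlte k hk0]
    omega
  rw [sum_const, smul_eq_mul] at h6
  rw [hm, hlte m hm0] at h5
  omega

theorem two_count (hd : ∀ i ∈ S, 1 ≤ d i)
    (h : ∏ i ∈ S, (2 ^ d i - 1) ∣ 2 ^ (∑ i ∈ S, d i) - 1) {e x : ℕ} (he : 2 ≤ e)
    (hN : ∑ i ∈ S, d i < e * (2 ^ e - 1) ^ x) :
    (S.filter (fun i => e ∣ d i)).card ≤ x := by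
  classical
  rcases (S.filter (fun i => e ∣ d i)).eq_empty_or_nonempty with hE | ⟨i0, hi0⟩
  · rw [hE]; simp
  have hi0S : i0 ∈ S := (mem_filter.1 hi0).1
  obtain ⟨m, hm⟩ : e ∣ ∑ i ∈ S, d i := (mem_filter.1 hi0).2.trans (each_dvd le_rfl h hi0S)
  have hN1 : 1 ≤ ∑ i ∈ S, d i :=
    (hd i0 hi0S).trans (single_le_sum (f := d) (fun _ _ => Nat.zero_le _) hi0S)
  have hm0 : m ≠ 0 := by rintro rfl; omega
  have h4 : 2 ^ 2 ≤ 2 ^ e := Nat.pow_le_pow_right (by omega) he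
  by_contra hc
  have h1 : (2 ^ e - 1) ^ x ∣ m := by
    rw [← Nat.factorization_prime_le_iff_dvd (pow_ne_zero _ (by omega)) hm0]
    intro l hl
    rw [Nat.factorization_pow, Finsupp.smul_apply, smul_eq_mul, Nat.factorization_def _ hl,
      Nat.factorization_def _ hl]
    by_cases hld : l ∣ 2 ^ e - 1
    · have h2 := two_val hd h he hm0 hm hl hld
      have h3 : (x + 1) * padicValNat l (2 ^ e - 1) ≤
          (S.filter (fun i => e ∣ d i)).card * padicValNat l (2 ^ e - 1) :=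
        Nat.mul_le_mul_right _ (by omega)
      rw [add_mul, one_mul] at h3
      omega
    · rw [padicValNat.eq_zero_of_not_dvd hld, mul_zero]
      exact Nat.zero_le _
  have h2 : (2 ^ e - 1) ^ x ≤ m := Nat.le_of_dvd (by omega) h1
  have h3 : e * (2 ^ e - 1) ^ x ≤ e * m := Nat.mul_le_mul_left _ h2
  omega

theorem two_gcd (hd : ∀ i ∈ S, 1 ≤ d i)
    (h : ∏ i ∈ S, (2 ^ d i - 1) ∣ 2 ^ (∑ i ∈ S, d i) - 1) {i j : ι} (hi : i ∈ S) (hj : j ∈ S)
    (hij : i ≠ j) {n : ℕ} (hn : ∑ i ∈ S, d i = n * d i) :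
    2 ^ (Nat.gcd (d i) (d j)) - 1 ∣ n := by
  classical
  set N := ∑ i ∈ S, d i with hN
  set g := Nat.gcd (d i) (d j) with hg
  have h1 : (2 ^ d i - 1) * (2 ^ d j - 1) ∣ 2 ^ N - 1 := by
    have : ∏ k ∈ ({i, j} : Finset ι), (2 ^ d k - 1) = (2 ^ d i - 1) * (2 ^ d j - 1) :=
      prod_pair hij
    rw [← this]
    refine (prod_dvd_prod_of_subset _ _ _ ?_).trans h
    intro k hk
    rw [mem_insert, mem_singleton] at hk
    rcases hk with rfl | rfl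
    · exact hi
    · exact hj
  have hge1 : ∀ k : ℕ, 1 ≤ 2 ^ k := fun k => Nat.one_le_two_pow
  have h2 : (((2 : ℤ) ^ d i - 1) * ((2 : ℤ) ^ d j - 1)) ∣ ((2 : ℤ) ^ d i) ^ n - 1 := by
    have h3 := Int.natCast_dvd_natCast.2 h1
    rw [Nat.cast_mul, Nat.cast_sub (hge1 _), Nat.cast_sub (hge1 _), Nat.cast_sub (hge1 _)] at h3
    push_cast at h3
    rw [← pow_mul, mul_comm (d i) n, ← hn]
    exact h3
  rw [← geom_sum_mul ((2 : ℤ) ^ d i) n, mul_comm ((2 : ℤ) ^ d i - 1) ((2 : ℤ) ^ d j - 1)] at h2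
  have hx0 : (2 : ℤ) ^ d i - 1 ≠ 0 := by
    have : (2 : ℤ) ^ 1 ≤ 2 ^ d i := pow_le_pow_right₀ (by norm_num) (hd i hi)
    intro hc
    omega
  have h3 : (2 : ℤ) ^ d j - 1 ∣ ∑ k ∈ range n, ((2 : ℤ) ^ d i) ^ k :=
    (mul_dvd_mul_iff_right hx0).1 h2
  have hGj : (2 : ℤ) ^ g - 1 ∣ (2 : ℤ) ^ d j - 1 := by
    obtain ⟨k, hk⟩ := Nat.gcd_dvd_right (d i) (d j)
    rw [← hg] at hk
    rw [hk, pow_mul]
    simpa using sub_one_dvd_pow_sub_one ((2 : ℤ) ^ g) k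
  have hGi : (2 : ℤ) ^ g - 1 ∣ (2 : ℤ) ^ d i - 1 := by
    obtain ⟨k, hk⟩ := Nat.gcd_dvd_left (d i) (d j)
    rw [← hg] at hk
    rw [hk, pow_mul]
    simpa using sub_one_dvd_pow_sub_one ((2 : ℤ) ^ g) k
  have h4 : (2 : ℤ) ^ g - 1 ∣ ∑ k ∈ range n, (((2 : ℤ) ^ d i) ^ k - 1) := by
    refine dvd_sum fun k _ => hGi.trans ?_
    exact sub_one_dvd_pow_sub_one ((2 : ℤ) ^ d i) k
  rw [sum_sub_distrib, sum_const, card_range, nsmul_eq_mul, mul_one] at h4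
  have h5 : (2 : ℤ) ^ g - 1 ∣ (n : ℤ) := (dvd_sub_right (hGj.trans h3)).1 h4
  have h6 : (((2 ^ g - 1 : ℕ)) : ℤ) ∣ (n : ℤ) := by
    rw [Nat.cast_sub (hge1 _)]
    push_cast
    exact h5
  exact Int.natCast_dvd_natCast.1 h6

theorem two_struct (h2 : 2 ≤ S.card) (hd : ∀ i ∈ S, 1 ≤ d i)
    (h : ∏ i ∈ S, (2 ^ d i - 1) ∣ 2 ^ (∑ i ∈ S, d i) - 1) [DecidableEq ι] :
    ∃ i0 ∈ S, ∃ n : ℕ, 2 ≤ n ∧ n ≤ S.card ∧ ∑ i ∈ S, d i = n * d i0 ∧
      (∀ j ∈ S, d j ≤ d i0) ∧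
      ∀ G : ℕ, S.card + 1 < 2 ^ (G + 1) → ∀ j ∈ S.erase i0, d j ≤ n * G := by
  have hne : S.Nonempty := card_pos.1 (by omega)
  obtain ⟨i0, hi0, hmax⟩ := exists_max_image S d hne
  set N := ∑ i ∈ S, d i with hN
  set r := S.card with hr
  obtain ⟨n, hn⟩ := each_dvd le_rfl h hi0
  rw [← hN] at hn
  have ha := hd i0 hi0
  have hn' : N = n * d i0 := by rw [hn, mul_comm]
  have hNr : N ≤ r * d i0 := by
    have := sum_le_card_nsmul S d (d i0) hmax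
    rw [smul_eq_mul] at this
    exact this
  have hnr : n ≤ r := by
    rw [hn'] at hNr
    exact Nat.le_of_mul_le_mul_right hNr (by omega)
  have hsplit : N = d i0 + ∑ j ∈ S.erase i0, d j := (add_sum_erase S d hi0).symm
  have hNgt : d i0 < N := by
    have h3 : ∑ _j ∈ S.erase i0, 1 ≤ ∑ j ∈ S.erase i0, d j :=
      sum_le_sum fun j hj => hd j (mem_of_mem_erase hj)
    rw [sum_const, smul_eq_mul, mul_one, card_erase_of_mem hi0] at h3
    omega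
  have hn2 : 2 ≤ n := by
    by_contra hc
    have h3 : n * d i0 ≤ 1 * d i0 := Nat.mul_le_mul_right _ (by omega)
    omega
  refine ⟨i0, hi0, n, hn2, hnr, hn', hmax, ?_⟩
  intro G hG j hj
  have hjS := mem_of_mem_erase hj
  have hgd := two_gcd hd h hi0 hjS (ne_of_mem_erase hj).symm hn'
  set g := Nat.gcd (d i0) (d j) with hg
  have h3 : 2 ^ g - 1 ≤ n := Nat.le_of_dvd (by omega) hgd
  have h4 : 2 ^ g < 2 ^ (G + 1) := by omega
  have h5 : g < G + 1 := (Nat.pow_lt_pow_iff_right (by omega)).1 h4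
  have h6 : d j ∣ n * g := by
    rw [hg, ← Nat.gcd_mul_left]
    exact Nat.dvd_gcd (hn' ▸ each_dvd le_rfl h hjS) (dvd_mul_left _ _)
  have hg0 : 0 < g := Nat.gcd_pos_of_pos_left _ (by omega)
  have h7 : d j ≤ n * g := Nat.le_of_dvd (Nat.mul_pos (by omega) hg0) h6
  exact h7.trans (Nat.mul_le_mul_left _ (by omega))

theorem two_rest {i0 : ι} (hi0 : i0 ∈ S) [DecidableEq ι] {n : ℕ} (hn : 2 ≤ n)
    (hN : ∑ i ∈ S, d i = n * d i0) : ∑ j ∈ S.erase i0, d j = (n - 1) * d i0 := by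
  have h1 := add_sum_erase S d hi0
  obtain ⟨m, rfl⟩ : ∃ m, n = m + 1 := ⟨n - 1, by omega⟩
  rw [hN, add_mul, one_mul] at h1
  simp only [Nat.add_sub_cancel]
  omega

theorem two_size (h2 : 2 ≤ S.card) (hd : ∀ i ∈ S, 1 ≤ d i)
    (h : ∏ i ∈ S, (2 ^ d i - 1) ∣ 2 ^ (∑ i ∈ S, d i) - 1) {R G : ℕ} (hR : S.card ≤ R)
    (hG : R + 1 < 2 ^ (G + 1)) : ∑ i ∈ S, d i ≤ (R - 1) * (R + 2) * G := by
  classical
  obtain ⟨i0, hi0, n, hn2, hnr, hN, -, hoth⟩ := two_struct h2 hd h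
  have h3 := sum_le_card_nsmul (S.erase i0) d (n * G) (hoth G (by omega))
  rw [two_rest hi0 hn2 hN, smul_eq_mul, card_erase_of_mem hi0] at h3
  rw [hN]
  obtain ⟨m, rfl⟩ : ∃ m, n = m + 1 := ⟨n - 1, by omega⟩
  obtain ⟨Q, rfl⟩ : ∃ Q, R = Q + 1 := ⟨R - 1, by omega⟩
  simp only [Nat.add_sub_cancel] at h3 ⊢
  have h4 : (S.card - 1) * ((m + 1) * G) ≤ Q * ((m + 1) * G) :=
    Nat.mul_le_mul_right _ (by omega)
  have h5 : (m + 1) * (m * d i0) ≤ (m + 1) * (Q * ((m + 1) * G)) :=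
    Nat.mul_le_mul_left _ (h3.trans h4)
  have h6 : (m + 1) * (m + 1) ≤ m * (Q + 1 + 2) := by nlinarith
  have h7 : (m + 1) * (Q * ((m + 1) * G)) ≤ m * (Q * (Q + 1 + 2) * G) := by
    calc (m + 1) * (Q * ((m + 1) * G)) = ((m + 1) * (m + 1)) * (Q * G) := by ring
      _ ≤ (m * (Q + 1 + 2)) * (Q * G) := Nat.mul_le_mul_right _ h6
      _ = m * (Q * (Q + 1 + 2) * G) := by ring
  have h8 : m * ((m + 1) * d i0) ≤ m * (Q * (Q + 1 + 2) * G) := by
    calc m * ((m + 1) * d i0) = (m + 1) * (m * d i0) := by ring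
      _ ≤ _ := h5.trans h7
  exact Nat.le_of_mul_le_mul_left h8 (by omega)

theorem two_card (hd : ∀ i ∈ S, 1 ≤ d i)
    (h : ∏ i ∈ S, (2 ^ d i - 1) ∣ 2 ^ (∑ i ∈ S, d i) - 1)
    (h1 : (S.filter (fun i => d i = 1)).card ≤ 2) (B x y z w : ℕ) (hB : ∑ i ∈ S, d i < B)
    (hx : B ≤ 2 * 3 ^ x) (hy : B ≤ 3 * 7 ^ y) (hz : B ≤ 5 * 31 ^ z)
    (hw : B ≤ 5 ^ (w + 1)) : S.card ≤ 2 + x + y + w * z := by
  classical
  rcases S.eq_empty_or_nonempty with hE | ⟨i0, hi0⟩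
  · rw [hE]; simp
  set N := ∑ i ∈ S, d i with hN
  have hN1 : 1 ≤ N :=
    (hd i0 hi0).trans (single_le_sum (f := d) (fun _ _ => Nat.zero_le _) hi0)
  set P := N.primeFactors.filter (fun p => 5 ≤ p) with hP
  have hsub : S ⊆ S.filter (fun i => d i = 1) ∪ (S.filter (fun i => 2 ∣ d i) ∪
      (S.filter (fun i => 3 ∣ d i) ∪ P.biUnion (fun p => S.filter (fun i => p ∣ d i)))) := by
    intro i hi
    rw [mem_union, mem_union, mem_union]
    by_cases h2 : d i = 1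
    · exact Or.inl (mem_filter.2 ⟨hi, h2⟩)
    by_cases h3 : 2 ∣ d i
    · exact Or.inr (Or.inl (mem_filter.2 ⟨hi, h3⟩))
    by_cases h4 : 3 ∣ d i
    · exact Or.inr (Or.inr (Or.inl (mem_filter.2 ⟨hi, h4⟩)))
    refine Or.inr (Or.inr (Or.inr ?_))
    rw [mem_biUnion]
    have hpr := Nat.minFac_prime h2
    have hpd := Nat.minFac_dvd (d i)
    refine ⟨(d i).minFac, ?_, mem_filter.2 ⟨hi, hpd⟩⟩
    rw [hP, mem_filter, Nat.mem_primeFactors]
    refine ⟨⟨hpr, hpd.trans (each_dvd le_rfl h hi), by omega⟩, ?_⟩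
    have h5 := hpr.two_le
    by_contra hc
    have h6 : (d i).minFac = 2 ∨ (d i).minFac = 3 ∨ (d i).minFac = 4 := by omega
    rcases h6 with h6 | h6 | h6
    · exact h3 (h6 ▸ hpd)
    · exact h4 (h6 ▸ hpd)
    · rw [h6] at hpr
      exact absurd hpr (by decide)
  have hPw : P.card ≤ w := by
    have h3 : 5 ^ P.card ≤ ∏ p ∈ P, p :=
      pow_card_le_prod _ _ _ (fun p hp => (mem_filter.1 hp).2)
    have h4 : ∏ p ∈ P, p ≤ N := by
      refine Nat.le_of_dvd (by omega) ?_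
      exact (prod_dvd_prod_of_subset _ _ _ (filter_subset _ _)).trans
        (Nat.prod_primeFactors_dvd N)
    have h5 : 5 ^ P.card < 5 ^ (w + 1) := by omega
    have := (Nat.pow_lt_pow_iff_right (by omega)).1 h5
    omega
  have hc2 : (S.filter (fun i => 2 ∣ d i)).card ≤ x :=
    two_count hd h le_rfl (by norm_num; omega)
  have hc3 : (S.filter (fun i => 3 ∣ d i)).card ≤ y :=
    two_count hd h (by omega) (by norm_num; omega)
  have hc5 : ∀ p ∈ P, (S.filter (fun i => p ∣ d i)).card ≤ z := by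
    intro p hp
    have hp5 : 5 ≤ p := (mem_filter.1 hp).2
    refine two_count hd h (by omega) ?_
    have h3 : 2 ^ 5 ≤ 2 ^ p := Nat.pow_le_pow_right (by omega) hp5
    calc N < B := hB
      _ ≤ 5 * 31 ^ z := hz
      _ ≤ p * (2 ^ p - 1) ^ z := Nat.mul_le_mul hp5 (Nat.pow_le_pow_left (by omega) _)
  have hcP : (P.biUnion (fun p => S.filter (fun i => p ∣ d i))).card ≤ w * z := by
    calc _ ≤ ∑ p ∈ P, (S.filter (fun i => p ∣ d i)).card := card_biUnion_le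
      _ ≤ ∑ _p ∈ P, z := sum_le_sum hc5
      _ = P.card * z := by rw [sum_const, smul_eq_mul]
      _ ≤ w * z := Nat.mul_le_mul_right _ hPw
  have e1 := card_le_card hsub
  have e2 := card_union_le (S.filter (fun i => d i = 1)) (S.filter (fun i => 2 ∣ d i) ∪
      (S.filter (fun i => 3 ∣ d i) ∪ P.biUnion (fun p => S.filter (fun i => p ∣ d i))))
  have e3 := card_union_le (S.filter (fun i => 2 ∣ d i))
      (S.filter (fun i => 3 ∣ d i) ∪ P.biUnion (fun p => S.filter (fun i => p ∣ d i)))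
  have e4 := card_union_le (S.filter (fun i => 3 ∣ d i))
      (P.biUnion (fun p => S.filter (fun i => p ∣ d i)))
  omega

end Pool.Agent.helper85.SFF
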